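import Pool.Agent.Lib.MP_776403_ag.GQ.Main

/-!
# Projective manifolds with a Galois linear projection are complete intersections
-/

namespace Pool.Agent.Results.MP_776403_ag.GaloisProjections

open MvPolynomial Pool.Agent.GQ

/-- Let `X ⊂ ℙ^(n+c)` be a projective manifold of dimension `n ≥ c`, not contained in a hyperplane,
with the homogeneous ideal `I ⊂ ℂ[x_0, …, x_n, y_1, …, y_c]`. Let `G` be a finite group of invertible
`c × c` matrices, acting on the coordinates `y`, which maps `X` to itself and for which the linear
projection `(x : y) ↦ x` is the quotient of `X` by `G` (`Dat n c G I`: the `G`-invariants of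
`ℂ[x, y] / I` are `ℂ[x]`). Then there are algebraically independent homogeneous generators
`t_1, …, t_c` of the algebra of `G`-invariant polynomials in `y` and forms `h_1, …, h_c` in `x` of the
same degrees such that `I` is generated by `t_1(y) - h_1(x), …, t_c(y) - h_c(x)`; in particular `X` is a
complete intersection. -/
theorem result (n c : ℕ) (hc : c ≤ n) (G : Subgroup (Gl c)) [Finite G] (I : Ideal (Sx n c))
    (hX : Dat n c G I) :
    ∃ (t : Fin c → Vx c) (h : Fin c → Px n) (m : Fin c → ℕ),
      (∀ i, 0 < m i ∧ (t i).IsHomogeneous (m i) ∧ (h i).IsHomogeneous (m i)) ∧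
      AlgebraicIndependent ℂ t ∧ Algebra.adjoin ℂ (Set.range t) = invAlg G ∧
      I = Ideal.span (Set.range fun i => iY (t i) - iX (h i)) :=
  mainGP n c hc G I hX

end Pool.Agent.Results.MP_776403_ag.GaloisProjections
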