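import Pool.Agent.Lib.MP_776403_ag.NS.H

/-!
# The numerical form of the question from the lines through a general point
-/

namespace Pool.Agent.Results.MP_776403_ag.LinesThroughPoint

open Pool.Agent.Lib.MP_776403_ag.NS

/-- Let `x_1, ..., x_c` be nonzero complex numbers with sum a natural number `a ≤ N` and let
`r_1, ..., r_a` be complex numbers whose power sums of the degrees `1 ≤ m ≤ a + c - 1` are
`∑_j r_j ^ m = ∑_i F_m(x_i)`, where `F_m(x) = (B_{m+1}(x + 1) - B_{m+1}(1)) / (m + 1)` is the
Faulhaber polynomial (`F_m(x) = 1^m + ... + x^m` for `x ∈ ℕ`).  If `P(1) = N + 1` for the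
Riemann-Roch polynomial `P = rrPoly N x`, then every `x_i` is an integer `≥ 2`.

For a manifold `X ⊆ ℙ^N` with normal Chern roots `x_i H` and `K_X = -(N + 1 - a) H` the `r_j h` are
the Chern roots of the normal bundle in `ℙ^(N-1)` of the manifold of lines in `X` through a general
point (Grothendieck-Riemann-Roch; dimension `N - 1 - a`, which is `≥ a + c - 1` if `dim X ≥ 2 a`);
so `X` is numerically a complete intersection. -/
theorem result (c N a : ℕ) (x : Fin c → ℂ) (hx : ∀ i, x i ≠ 0) (ha : ∑ i, x i = a)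
    (haN : a ≤ N) (r : Fin a → ℂ)
    (hr : ∀ m : ℕ, 1 ≤ m → m < a + c → ∑ j, r j ^ m = ∑ i, faulhaber m (x i))
    (h1 : rrPoly N x 1 = N + 1) :
    ∀ i, ∃ m : ℕ, 2 ≤ m ∧ x i = m :=
  mainLines x r N hx ha haN hr h1

end Pool.Agent.Results.MP_776403_ag.LinesThroughPoint
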